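import Pool.Agent.Lib.MP_9cc147_pr.Cx.S2

/-! From the output of the renormalisation group to the main statement. -/

open scoped Classical Topology
open Finset MeasureTheory ProbabilityTheory Filter

noncomputable section
namespace Pool.Agent.Lib.MP_9cc147_pr.Cx.Q

theorem sum_cos {ι : Type} (p x : ι → ℝ) (hp : ∀ i, 0 ≤ p i) (hs : Summable p) (t : ℝ) :
    Summable fun i => p i * Real.cos (t * x i) := by
  refine Summable.of_norm_bounded hs fun i => ?_
  rw [Real.norm_eq_abs, abs_mul, abs_of_nonneg (hp i)]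
  exact mul_le_of_le_one_right (hp i) (Real.abs_cos_le_one _)

theorem mom_up {ι : Type} (p x : ι → ℝ) (hp : ∀ i, 0 ≤ p i) (hs : Summable p) (g : ℝ → ℝ)
    (hg : ContinuousAt g 0)
    (h : ∀ᶠ t in 𝓝[>] (0 : ℝ), 2 * (∑' i, p i - ∑' i, p i * Real.cos (t * x i)) ≤ g t * t ^ 2) :
    Summable (fun i => x i ^ 2 * p i) ∧ ∑' i, x i ^ 2 * p i ≤ g 0 := by
  have key : ∀ s : Finset ι, ∑ i ∈ s, x i ^ 2 * p i ≤ g 0 := by
    intro s
    have c1 : Continuous fun t : ℝ => ∑ i ∈ s, (x i ^ 2 - t ^ 2 * x i ^ 4) * p i := by fun_prop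
    have t1 : Tendsto (fun t : ℝ => ∑ i ∈ s, (x i ^ 2 - t ^ 2 * x i ^ 4) * p i) (𝓝[>] 0)
        (𝓝 (∑ i ∈ s, x i ^ 2 * p i)) := by
      have := (c1.tendsto 0).mono_left (nhdsWithin_le_nhds (s := Set.Ioi (0 : ℝ)))
      simpa using this
    have t2 : Tendsto g (𝓝[>] 0) (𝓝 (g 0)) := hg.tendsto.mono_left nhdsWithin_le_nhds
    have e1 : ∀ᶠ t in 𝓝[>] (0 : ℝ), ∀ i ∈ s, |t * x i| ≤ 1 := by
      rw [Finset.eventually_all]
      intro i _
      have c2 : Continuous fun t : ℝ => |t * x i| := by fun_prop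
      have : ∀ᶠ t in 𝓝 (0 : ℝ), |t * x i| < 1 :=
        (c2.tendsto 0).eventually (gt_mem_nhds (by simp))
      exact (this.filter_mono nhdsWithin_le_nhds).mono fun t ht => ht.le
    refine le_of_tendsto_of_tendsto t1 t2 ?_
    filter_upwards [h, e1, self_mem_nhdsWithin] with t ht h1 h0
    have h0' : (0 : ℝ) < t := h0
    have ht2 : 0 < t ^ 2 := by positivity
    refine le_of_mul_le_mul_right (le_trans ?_ ht) ht2
    rw [← (hs.tsum_sub (sum_cos p x hp hs t)), Finset.sum_mul]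
    have hsum : Summable fun i => p i - p i * Real.cos (t * x i) := hs.sub (sum_cos p x hp hs t)
    have hn : ∀ i, 0 ≤ p i - p i * Real.cos (t * x i) := fun i => by
      have := mul_le_of_le_one_right (hp i) (Real.cos_le_one (t * x i))
      linarith
    refine le_trans ?_ (mul_le_mul_of_nonneg_left (hsum.sum_le_tsum s fun i _ => hn i) (by norm_num))
    rw [Finset.mul_sum]
    refine Finset.sum_le_sum fun i hi => ?_
    have hb := Real.cos_bound (h1 i hi)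
    have h4 : |t * x i| ^ 4 = (t * x i) ^ 4 := by
      rw [← abs_pow]; exact abs_of_nonneg (by positivity)
    rw [h4] at hb
    have hb2 := (abs_le.1 hb).2
    have h5 : 0 ≤ (t * x i) ^ 4 := by positivity
    have : (x i ^ 2 - t ^ 2 * x i ^ 4) * t ^ 2 ≤ 2 * (1 - Real.cos (t * x i)) := by nlinarith
    nlinarith [mul_le_mul_of_nonneg_left this (hp i)]
  have hsm : Summable fun i => x i ^ 2 * p i :=
    summable_of_sum_le (fun i => mul_nonneg (sq_nonneg _) (hp i)) key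
  exact ⟨hsm, hsm.tsum_le_of_sum_le key⟩

theorem mom_lo {ι : Type} (p x : ι → ℝ) (hp : ∀ i, 0 ≤ p i) (hs : Summable p) (g : ℝ → ℝ)
    (hg : ContinuousAt g 0) (h2 : Summable fun i => x i ^ 2 * p i)
    (h : ∀ᶠ t in 𝓝[>] (0 : ℝ), g t * t ^ 2 ≤ 2 * (∑' i, p i - ∑' i, p i * Real.cos (t * x i))) :
    g 0 ≤ ∑' i, x i ^ 2 * p i := by
  have t2 : Tendsto g (𝓝[>] 0) (𝓝 (g 0)) := hg.tendsto.mono_left nhdsWithin_le_nhds
  refine le_of_tendsto t2 ?_
  filter_upwards [h, self_mem_nhdsWithin] with t ht h0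
  have h0' : (0 : ℝ) < t := h0
  have ht2 : 0 < t ^ 2 := by positivity
  refine le_of_mul_le_mul_right (le_trans ht ?_) ht2
  rw [← (hs.tsum_sub (sum_cos p x hp hs t)), ← tsum_mul_left, ← tsum_mul_right]
  refine Summable.tsum_le_tsum (fun i => ?_) ((hs.sub (sum_cos p x hp hs t)).mul_left 2)
    (h2.mul_right _)
  have := Real.one_sub_sq_div_two_le_cos (x := t * x i)
  nlinarith [mul_le_mul_of_nonneg_left this (hp i)]

/-- second moment from the expansion of the characteristic function -/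
theorem mom_both {ι : Type} (p x : ι → ℝ) (hp : ∀ i, 0 ≤ p i) (hs : Summable p)
    (S R K t0 lo hi : ℝ) (hS : ∑' i, p i = S) (hS0 : 0 < S) (hR : 0 ≤ R) (ht0 : 0 < t0)
    (h : ∀ t : ℝ, 0 < t → t ≤ t0 → ∃ v, lo ≤ v ∧ v ≤ hi ∧
      |(∑' i, p i * Real.cos (t * x i)) / S * Real.exp (t ^ 2 * (R - 1) / 2) -
        (1 - v * R * t ^ 2 / 2)| ≤ K * t ^ 2 + (R + K) ^ 2 * t ^ 4) :
    Summable (fun i => x i ^ 2 * p i) ∧ (∑' i, x i ^ 2 * p i) / S ≤ R - 1 + hi * R + 2 * K ∧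
      R - 1 + lo * R - 2 * K ≤ (∑' i, x i ^ 2 * p i) / S := by
  have ev : ∀ᶠ t in 𝓝[>] (0 : ℝ), 0 < t ∧ t ≤ t0 := by
    filter_upwards [Ioc_mem_nhdsGT ht0] with t ht using ht
  have A := mom_up p x hp hs (fun t => S * (R - 1 + (hi * R + 2 * K + 2 * (R + K) ^ 2 * t ^ 2) *
      Real.exp (-(t ^ 2 * (R - 1) / 2)))) (by fun_prop) (by
    filter_upwards [ev] with t ht
    obtain ⟨v, -, hv, hb⟩ := h t ht.1 ht.2
    rw [hS]
    set c := ∑' i, p i * Real.cos (t * x i)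
    set a := t ^ 2 * (R - 1) / 2 with ha
    have hE : 0 < Real.exp (-a) := Real.exp_pos _
    have h1 := Real.add_one_le_exp (-a)
    have h2 : Real.exp a * Real.exp (-a) = 1 := by rw [← Real.exp_add]; simp
    have h3 := (abs_le.1 hb).1
    have h4 : v * R * t ^ 2 ≤ hi * R * t ^ 2 :=
      mul_le_mul_of_nonneg_right (mul_le_mul_of_nonneg_right hv hR) (sq_nonneg _)
    have h5 : 2 * (1 - c / S * Real.exp a) ≤
        (hi * R + 2 * K + 2 * (R + K) ^ 2 * t ^ 2) * t ^ 2 := by nlinarith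
    have h6 := mul_le_mul_of_nonneg_right h5 hE.le
    have h7 : 2 * (1 - c / S * Real.exp a) * Real.exp (-a) = 2 * (Real.exp (-a) - c / S) := by
      linear_combination (-2 * (c / S)) * h2
    have h8 : 2 * (1 - c / S) ≤ (R - 1 + (hi * R + 2 * K + 2 * (R + K) ^ 2 * t ^ 2) *
        Real.exp (-a)) * t ^ 2 := by nlinarith
    have h9 := mul_le_mul_of_nonneg_left h8 hS0.le
    have h10 : S * (2 * (1 - c / S)) = 2 * (S - c) := by field_simp
    linarith)
  have B := mom_lo p x hp hs (fun t => S * ((R - 1 + lo * R - 2 * K - 2 * (R + K) ^ 2 * t ^ 2) *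
      Real.exp (-(t ^ 2 * (R - 1) / 2)))) (by fun_prop) A.1 (by
    filter_upwards [ev] with t ht
    obtain ⟨v, hv, -, hb⟩ := h t ht.1 ht.2
    rw [hS]
    set c := ∑' i, p i * Real.cos (t * x i)
    set a := t ^ 2 * (R - 1) / 2 with ha
    have hE : 0 < Real.exp (-a) := Real.exp_pos _
    have h1 := Real.add_one_le_exp a
    have h2 : Real.exp a * Real.exp (-a) = 1 := by rw [← Real.exp_add]; simp
    have h3 := (abs_le.1 hb).2
    have h4 : lo * R * t ^ 2 ≤ v * R * t ^ 2 :=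
      mul_le_mul_of_nonneg_right (mul_le_mul_of_nonneg_right hv hR) (sq_nonneg _)
    have h5 : (R - 1 + lo * R - 2 * K - 2 * (R + K) ^ 2 * t ^ 2) * t ^ 2 ≤
        2 * (Real.exp a - c / S * Real.exp a) := by nlinarith
    have h6 := mul_le_mul_of_nonneg_right h5 hE.le
    have h7 : 2 * (Real.exp a - c / S * Real.exp a) * Real.exp (-a) = 2 * (1 - c / S) := by
      linear_combination (2 * (1 - c / S)) * h2
    have h8 : (R - 1 + lo * R - 2 * K - 2 * (R + K) ^ 2 * t ^ 2) * Real.exp (-a) * t ^ 2 ≤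
        2 * (1 - c / S) := by nlinarith
    have h9 := mul_le_mul_of_nonneg_left h8 hS0.le
    have h10 : S * (2 * (1 - c / S)) = 2 * (S - c) := by field_simp
    linarith)
  refine ⟨A.1, ?_, ?_⟩
  · rw [div_le_iff₀ hS0]
    have := A.2
    simp at this
    linarith
  · rw [le_div_iff₀ hS0]
    simp at B
    linarith

theorem weight_nonneg (U : ℝ → ℝ) (M : ℝ) (n : ℕ) (m : V n → ℤ) : 0 ≤ weight U M n m := by
  unfold weight
  split_ifs
  · exact (Real.exp_pos _).le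
  · exact le_rfl

theorem Rt_nonneg (n : ℕ) : 0 ≤ Rt n := by
  unfold Rt n1
  positivity

/-- one box -/
theorem one_box (hd : S_dual) (ν : Measure ℝ) [IsFiniteMeasure ν] (hν : ν.map (fun x => -x) = ν)
    (L J n : ℕ) (hn : 1 ≤ n) (M : ℝ) (hM : 0 < M)
    (hs : Summable (weight (fun x => -Real.log (wN ν x)) M n)) (c : ℝ) (hc : 0 < c)
    (hp : ∀ t : ℝ, |t| ≤ 1 → ∑' m, weight (fun x => -Real.log (wN ν x)) M n m *
      Real.cos (t * m (Fin.last n, Fin.last n) / M) =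
        c * ∫ φ, wR (wN ν) n φ * Real.cos (t * pin φ (Fin.last n, Fin.last n)))
    (Z K t0 lo hi : ℝ) (hZ : 0 < Z) (ht0 : 0 < t0)
    (h0 : Tot L (n + 1) J (W0 ν (n + 1)) (bg (n + 1) 0) = Z)
    (ht : ∀ t : ℝ, t ≠ 0 → |t| ≤ t0 → ∃ v : ℝ, (lo ≤ v ∧ v ≤ hi) ∧
      ‖Tot L (n + 1) J (W0 ν (n + 1)) (bg (n + 1) t) / Z - (1 - v * Rt (n + 1) * t ^ 2 / 2 : ℝ)‖ ≤
        K * t ^ 2 + (Rt (n + 1) + K) ^ 2 * t ^ 4) :
    Summable (fun m => (m (Fin.last n, Fin.last n) : ℝ) ^ 2 *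
      weight (fun x => -Real.log (wN ν x)) M n m) ∧
    (∑' m, (m (Fin.last n, Fin.last n) : ℝ) ^ 2 * weight (fun x => -Real.log (wN ν x)) M n m) /
      (∑' m, weight (fun x => -Real.log (wN ν x)) M n m) ≤
        M ^ 2 * (Rt (n + 1) - 1 + hi * Rt (n + 1) + 2 * K) ∧
    M ^ 2 * (Rt (n + 1) - 1 + lo * Rt (n + 1) - 2 * K) ≤
      (∑' m, (m (Fin.last n, Fin.last n) : ℝ) ^ 2 * weight (fun x => -Real.log (wN ν x)) M n m) /
        (∑' m, weight (fun x => -Real.log (wN ν x)) M n m) := by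
  obtain ⟨c', hc', hdu⟩ := hd ν L J n hn hν
  set w := weight (fun x => -Real.log (wN ν x)) M n with hw
  have hS : ∑' m, w m = c * c' * Z := by
    have h1 := hp 0 (by simp)
    have h2 := hdu 0
    rw [Complex.ofReal_zero, h0] at h2
    have h3 : ∫ φ, wR (wN ν) n φ * Real.cos (0 * pin φ (Fin.last n, Fin.last n)) = c' * Z := by
      have := Complex.ofReal_injective (h2.trans (Complex.ofReal_mul _ _).symm)
      simpa using this
    rw [h3] at h1
    simpa [mul_assoc] using h1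
  have hS0 : 0 < c * c' * Z := by positivity
  have key := mom_both w (fun m => (m (Fin.last n, Fin.last n) : ℝ) / M) (weight_nonneg _ _ _) hs
    (c * c' * Z) (Rt (n + 1)) K (min t0 1) lo hi hS hS0 (Rt_nonneg _) (lt_min ht0 one_pos) (by
    intro t h1 h2
    have a1 : |t| ≤ t0 := by rw [abs_of_pos h1]; exact h2.trans (min_le_left _ _)
    have a2 : |t| ≤ 1 := by rw [abs_of_pos h1]; exact h2.trans (min_le_right _ _)
    obtain ⟨v, hv, hb⟩ := ht t h1.ne' a1
    refine ⟨v, hv.1, hv.2, le_of_eq_of_le ?_ hb⟩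
    have h3 := hp t a2
    simp only [mul_div_assoc] at h3
    rw [h3, ← Real.norm_eq_abs, ← Complex.norm_real]
    congr 1
    have h4 := hdu t
    have hE : ((Real.exp (-t ^ 2 * (Rt (n + 1) - 1) / 2) : ℝ) : ℂ) *
        (Real.exp (t ^ 2 * (Rt (n + 1) - 1) / 2) : ℝ) = 1 := by
      rw [← Complex.ofReal_mul, ← Real.exp_add]
      have : -t ^ 2 * (Rt (n + 1) - 1) / 2 + t ^ 2 * (Rt (n + 1) - 1) / 2 = 0 := by ring
      rw [this]; simp
    rw [Complex.ofReal_sub, Complex.ofReal_mul, Complex.ofReal_div, Complex.ofReal_mul, h4,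
      Complex.ofReal_mul, Complex.ofReal_mul, Complex.ofReal_mul]
    congr 1
    have b1 : (c : ℂ) ≠ 0 := by exact_mod_cast hc.ne'
    have b2 : (c' : ℂ) ≠ 0 := by exact_mod_cast hc'.ne'
    have b3 : (Z : ℂ) ≠ 0 := by exact_mod_cast hZ.ne'
    generalize Tot L (n + 1) J (W0 ν (n + 1)) (bg (n + 1) t) = T
    generalize ((Real.exp (-t ^ 2 * (Rt (n + 1) - 1) / 2) : ℝ) : ℂ) = E1 at hE ⊢
    generalize ((Real.exp (t ^ 2 * (Rt (n + 1) - 1) / 2) : ℝ) : ℂ) = E2 at hE ⊢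
    field_simp
    linear_combination T * hE)
  have hM2 : 0 < M ^ 2 := by positivity
  have e1 : (fun m : V n → ℤ => (m (Fin.last n, Fin.last n) : ℝ) ^ 2 * w m) =
      fun m => M ^ 2 * (((m (Fin.last n, Fin.last n) : ℝ) / M) ^ 2 * w m) := by
    funext m; field_simp
  rw [e1, tsum_mul_left, hS, mul_div_assoc]
  exact ⟨key.1.mul_left _, mul_le_mul_of_nonneg_left key.2.1 hM2.le,
    mul_le_mul_of_nonneg_left key.2.2 hM2.le⟩

theorem main_of (hh : S_h) (hw : S_w) (hp : S_poi) (hd : S_dual) (hu : S_u) (ho : S_out) :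
    Main := by
  obtain ⟨h, hh⟩ := hh
  obtain ⟨q, o, hL, hoh, hη, hB, hτ, a1, a2, K, t0, ha2, ha, ht0, hout⟩ := ho h hh
  obtain ⟨hfin, hpos, hsm, hev, hsy, hgr, ⟨B, hBL⟩, htail, -⟩ := hw o (hoh ▸ hh) hη hB hτ
  have hcont : Continuous (wN o.nu) := by
    have : wN o.nu = fun x => Real.exp (-(-Real.log (wN o.nu x))) := by
      funext x; rw [neg_neg, Real.exp_log (hpos x)]
    rw [this]
    exact Real.continuous_exp.comp hsm.continuous.neg
  obtain ⟨M0, hM0, hpoi⟩ := hp (wN o.nu) B hBL hcont hpos htail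
  refine ⟨fun x => -Real.log (wN o.nu x), hsm, fun x => by simp only [hev], hgr, M0, hM0,
    fun M hM => ?_⟩
  have hM' : 0 < M := hM0.trans hM
  obtain ⟨Cu, hu⟩ := hu
  have hN : ∀ J, 2 ≤ q.L ^ (J + 2) := fun J =>
    hL.trans (Nat.le_self_pow (by omega) _)
  have hT : Tendsto (fun J => q.L ^ (J + 2)) atTop atTop :=
    (tendsto_pow_atTop_atTop_of_one_lt (by omega : 1 < q.L)).comp (tendsto_add_atTop_nat 2)
  have hlog : Tendsto (fun J => Real.log ((q.L ^ (J + 2) : ℕ) : ℝ)) atTop atTop :=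
    Real.tendsto_log_atTop.comp (tendsto_natCast_atTop_atTop.comp hT)
  set lg : ℕ → ℝ := fun J => Real.log ((q.L ^ (J + 2) : ℕ) : ℝ) with hlg
  set s : ℕ → ℝ := fun J => Rt (q.L ^ (J + 2)) / lg J with hs
  have l1 : ∀ᶠ J in atTop, 1 ≤ lg J := hlog.eventually_ge_atTop 1
  have slo : ∀ᶠ J in atTop, 1 / 8 ≤ s J := by
    filter_upwards [l1] with J hJ
    have := (hu _ (hN J)).2.2.2.1
    rw [hs, le_div_iff₀ (by linarith)]
    simp only [hlg]; linarith
  have shi : ∀ᶠ J in atTop, s J ≤ 2 * |Cu| := by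
    filter_upwards [l1] with J hJ
    have h1 := (hu _ (hN J)).2.2.2.2.1
    rw [hs, div_le_iff₀ (by linarith)]
    have h2 : Cu * (1 + lg J) ≤ |Cu| * (1 + lg J) :=
      mul_le_mul_of_nonneg_right (le_abs_self _) (by linarith)
    have h3 : |Cu| * (1 + lg J) ≤ |Cu| * (2 * lg J) :=
      mul_le_mul_of_nonneg_left (by linarith) (abs_nonneg _)
    have h4 : Rt (q.L ^ (J + 2)) ≤ Cu * (1 + lg J) := h1
    linarith
  have b1 : IsBoundedUnder (· ≥ ·) atTop s := ⟨1 / 8, slo⟩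
  have b2 : IsCoboundedUnder (· ≥ ·) atTop s := IsBoundedUnder.isCoboundedUnder_ge ⟨2 * |Cu|, shi⟩
  set ρ := liminf s atTop with hρ
  have hρ8 : 1 / 8 ≤ ρ := le_liminf_of_le b2 slo
  set δ := (a1 - a2) / (100 * (2 + a1)) with hδ
  have ha1 : 0 < a1 := by linarith
  have hδ0 : 0 < δ := div_pos (by linarith) (by linarith)
  have hδ1 : δ * (100 * (2 + a1)) = a1 - a2 := div_mul_cancel₀ _ (by linarith)
  have f1 : ∀ᶠ J in atTop, ρ - δ < s J := eventually_lt_of_lt_liminf (by linarith) b1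
  have f2 : ∃ᶠ J in atTop, s J < ρ + δ := frequently_lt_of_liminf_lt b2 (by linarith)
  have l2 : ∀ᶠ J in atTop, (1 + 2 * |K| + (1 + a2) * |Cu|) / δ ≤ lg J := hlog.eventually_ge_atTop _
  refine ⟨M ^ 2 * ((1 + a2) * (ρ + δ) + δ), M ^ 2 * ((1 + a1) * (ρ - δ) - δ), ?_, ?_, ?_⟩
  · refine mul_lt_mul_of_pos_left ?_ (by positivity)
    nlinarith
  · have hT2 : Tendsto (fun J => 2 * q.L ^ (J + 2) - 1) atTop atTop :=
      tendsto_atTop_mono (fun J => by have := hN J; omega) hT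
    refine hT2.frequently ((f2.and_eventually (hout.and (l1.and l2))).mono ?_)
    rintro J ⟨hJ, hO, hl1, hl2⟩
    obtain ⟨Z, hZ, h0, ht⟩ := hO 2 (Or.inr rfl)
    obtain ⟨n, hn⟩ : ∃ n, 2 * q.L ^ (J + 2) = n + 1 := ⟨2 * q.L ^ (J + 2) - 1, by have := hN J; omega⟩
    have hqn : q.n (2, J) = n + 1 := hn
    have hn1 : 1 ≤ n := by have := hN J; omega
    rw [hqn] at h0 ht
    have e : 2 * q.L ^ (J + 2) - 1 = n := by omega
    rw [e]
    obtain ⟨-, hsum, c, hc, hpo⟩ := hpoi M hM n hn1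
    obtain ⟨r1, r2, -⟩ := one_box hd o.nu hsy q.L J n hn1 M hM' hsum c hc hpo Z K t0 0 a2 hZ ht0 h0
      (fun t h1 h2 => by simpa using ht t h1 h2)
    refine ⟨hsum, r1, ?_⟩
    have hle : lg J ≤ Real.log ((n : ℝ) + 1) := by
      refine Real.log_le_log (by have := hN J; positivity) ?_
      have : q.L ^ (J + 2) ≤ n + 1 := by omega
      exact_mod_cast this
    rw [div_le_iff₀ (by linarith), mul_assoc]
    refine r2.trans (mul_le_mul_of_nonneg_left ?_ (sq_nonneg _))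
    have g1 : Rt (n + 1) ≤ Rt (q.L ^ (J + 2)) + |Cu| := by
      have := (hu _ (hN J)).2.2.2.2.2.1
      rw [hn] at this
      linarith [le_abs_self Cu]
    have g2 : Rt (q.L ^ (J + 2)) ≤ (ρ + δ) * lg J := by
      have := hJ.le
      rwa [hs, div_le_iff₀ (by linarith)] at this
    have g3 : 1 + 2 * |K| + (1 + a2) * |Cu| ≤ lg J * δ := by rwa [div_le_iff₀ hδ0] at hl2
    have g4 : ((1 + a2) * (ρ + δ) + δ) * lg J ≤ ((1 + a2) * (ρ + δ) + δ) * Real.log ((n : ℝ) + 1) :=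
      mul_le_mul_of_nonneg_left hle (by positivity)
    have g5 : (1 + a2) * Rt (n + 1) ≤ (1 + a2) * ((ρ + δ) * lg J + |Cu|) :=
      mul_le_mul_of_nonneg_left (by linarith) (by linarith)
    nlinarith [le_abs_self K]
  · have hT2 : Tendsto (fun J => q.L ^ (J + 2) - 1) atTop atTop :=
      (tendsto_sub_atTop_nat 1).comp hT
    refine hT2.frequently ((f1.and (hout.and (l1.and l2))).frequently.mono ?_)
    rintro J ⟨hJ, hO, hl1, hl2⟩
    obtain ⟨Z, hZ, h0, ht⟩ := hO 1 (Or.inl rfl)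
    obtain ⟨n, hn⟩ : ∃ n, q.L ^ (J + 2) = n + 1 := ⟨q.L ^ (J + 2) - 1, by have := hN J; omega⟩
    have hqn : q.n (1, J) = n + 1 := (one_mul _).trans hn
    have hn1 : 1 ≤ n := by have := hN J; omega
    rw [hqn] at h0 ht
    have e : q.L ^ (J + 2) - 1 = n := by omega
    rw [e]
    obtain ⟨-, hsum, c, hc, hpo⟩ := hpoi M hM n hn1
    obtain ⟨r1, -, r2⟩ := one_box hd o.nu hsy q.L J n hn1 M hM' hsum c hc hpo Z K t0 a1 1 hZ ht0 h0
      (fun t h1 h2 => by simpa using ht t h1 h2)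
    refine ⟨hsum, r1, ?_⟩
    have hle : lg J = Real.log ((n : ℝ) + 1) := by
      simp only [hlg, hn]; push_cast; rfl
    rw [← hle, le_div_iff₀ (by linarith), mul_assoc]
    refine le_trans (mul_le_mul_of_nonneg_left ?_ (sq_nonneg _)) r2
    have g2 : (ρ - δ) * lg J ≤ Rt (n + 1) := by
      have := hJ.le
      rwa [hs, le_div_iff₀ (by linarith), hn] at this
    have g3 : 1 + 2 * |K| + (1 + a2) * |Cu| ≤ lg J * δ := by rwa [div_le_iff₀ hδ0] at hl2
    have g5 : (1 + a1) * ((ρ - δ) * lg J) ≤ (1 + a1) * Rt (n + 1) :=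
      mul_le_mul_of_nonneg_left g2 (by linarith)
    have g6 : 0 ≤ (1 + a2) * |Cu| := by positivity
    nlinarith [le_abs_self K]

end Pool.Agent.Lib.MP_9cc147_pr.Cx.Q

namespace Pool.Agent.Lib.MP_9cc147_pr.Cx

theorem t_main (h_h : S_h) (h_w : S_w) (h_poi : S_poi) (h_u : S_u) (h_dual : S_dual)
    (h_out : S_out) : Main := Q.main_of h_h h_w h_poi h_dual h_u h_out

end Pool.Agent.Lib.MP_9cc147_pr.Cx
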